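import Pool.Agent.helper62.LL.SpecE

set_option autoImplicit false

open scoped Topology
open MeasureTheory Filter Set

namespace Pool.Agent.LL

theorem BCT_cpm {X : Type} (m : MeasurableSpace X) [mX : MeasurableSpace X] (μ : Measure X) {p : ℕ} (P : X → Fin p)
    (hm : m ≤ mX) (hP : Measurable P) : Measurable (fun x => cp m μ P (P x) x) := by
  have h1 : ∀ i, Measurable (cp m μ P i) := by
    intro i
    exact (stronglyMeasurable_condExp.mono hm).measurable
  intro s hs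
  have h2 : (fun x => cp m μ P (P x) x) ⁻¹' s = ⋃ i : Fin p, (P ⁻¹' {i} ∩ (cp m μ P i) ⁻¹' s) := by
    ext x
    simp only [mem_preimage, mem_iUnion, mem_inter_iff, mem_singleton_iff]
    constructor
    · intro h
      exact ⟨P x, rfl, h⟩
    · rintro ⟨i, hi, h⟩
      rw [hi]
      exact h
  rw [h2]
  exact MeasurableSet.iUnion fun i => (hP (measurableSet_singleton i)).inter (h1 i hs)

theorem BCT_cyl {X : Type} [mX : MeasurableSpace X] (μ : Measure X) (T : X → X) {p : ℕ} (P : X → Fin p) (N : ℕ)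
    (hT : Measurable T) (hP : Measurable P) : Measurable (cyl μ T P N) := by
  have hw : Measurable (fun (x : X) (i : Fin N) => P (T^[i] x)) :=
    measurable_pi_lambda _ fun i => hP.comp (hT.iterate _)
  have h1 : cyl μ T P N = (fun v : Fin N → Fin p => μ.real {y | ∀ i : Fin N, P (T^[i] y) = v i}) ∘
      (fun (x : X) (i : Fin N) => P (T^[i] x)) := rfl
  rw [h1]
  exact (measurable_of_countable _).comp hw

theorem BCT_sum (ε : ℝ) (hε : 0 < ε) : Summable (fun n : ℕ => Real.exp (-(ε * ((2 * n + 1 : ℕ) : ℝ)))) := by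
  have h1 : ∀ n : ℕ, Real.exp (-(ε * ((2 * n + 1 : ℕ) : ℝ))) = Real.exp (-ε) * (Real.exp (-(2 * ε))) ^ n := by
    intro n
    rw [← Real.exp_nat_mul, ← Real.exp_add]
    congr 1
    push_cast
    ring
  simp_rw [h1]
  refine Summable.mul_left _ (summable_geometric_of_lt_one (Real.exp_pos _).le ?_)
  rw [Real.exp_lt_one_iff]
  linarith

theorem BCT_pt (c : ℕ → ℝ) (g : ℕ → ℝ) (N : ℕ) (A E L : ℝ) (hc : ∀ i, 0 < c i ∧ c i ≤ 1)
    (hg : ∀ i, g i = max 0 (min (-Real.log (c i)) L))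
    (h : ENNReal.ofReal A * ∏ i ∈ Finset.range N, (ENNReal.ofReal (c i))⁻¹ < ENNReal.ofReal (Real.exp E)) :
    A ≤ Real.exp (E - ∑ i ∈ Finset.range N, g i) := by
  have h1 : ∏ i ∈ Finset.range N, (ENNReal.ofReal (c i))⁻¹ = ENNReal.ofReal (∏ i ∈ Finset.range N, (c i)⁻¹) := by
    rw [ENNReal.ofReal_prod_of_nonneg]
    · exact Finset.prod_congr rfl fun i _ => (ENNReal.ofReal_inv_of_pos (hc i).1).symm
    · intro i _
      exact (inv_pos.mpr (hc i).1).le
  have hP : 0 < ∏ i ∈ Finset.range N, (c i)⁻¹ := Finset.prod_pos fun i _ => inv_pos.mpr (hc i).1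
  rw [h1, ← ENNReal.ofReal_mul' hP.le, ENNReal.ofReal_lt_ofReal_iff (Real.exp_pos _)] at h
  have h2 : ∏ i ∈ Finset.range N, c i ≤ Real.exp (-∑ i ∈ Finset.range N, g i) := by
    rw [← Finset.sum_neg_distrib, Real.exp_sum]
    refine Finset.prod_le_prod (fun i _ => (hc i).1.le) fun i _ => ?_
    have h3 : 0 ≤ -Real.log (c i) := by
      have := Real.log_nonpos (hc i).1.le (hc i).2
      linarith
    have h4 : g i ≤ -Real.log (c i) := by
      rw [hg]
      exact max_le h3 (min_le_left _ _)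
    calc c i = Real.exp (Real.log (c i)) := (Real.exp_log (hc i).1).symm
      _ ≤ Real.exp (-g i) := Real.exp_le_exp.mpr (by linarith)
  have h5 : (∏ i ∈ Finset.range N, (c i)⁻¹) * ∏ i ∈ Finset.range N, c i = 1 := by
    rw [← Finset.prod_mul_distrib]
    exact Finset.prod_eq_one fun i _ => inv_mul_cancel₀ (hc i).1.ne'
  have hQ : 0 < ∏ i ∈ Finset.range N, c i := Finset.prod_pos fun i _ => (hc i).1
  calc A = (A * ∏ i ∈ Finset.range N, (c i)⁻¹) * ∏ i ∈ Finset.range N, c i := by rw [mul_assoc, h5, mul_one]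
    _ ≤ Real.exp E * ∏ i ∈ Finset.range N, c i := mul_le_mul_of_nonneg_right h.le hQ.le
    _ ≤ Real.exp E * Real.exp (-∑ i ∈ Finset.range N, g i) := mul_le_mul_of_nonneg_left h2 (Real.exp_pos _).le
    _ = _ := by rw [← Real.exp_add, sub_eq_add_neg]

theorem BCT_proof (h1 : SUB_stmt) (h2 : INF_stmt) : BCT_stmt := by
  intro X mX μ T S p P ε L hμ hsys hP hε hL
  have hm : pastI S P ≤ mX := by
    refine iSup_le fun j => ?_
    exact Measurable.comap_le (hP.comp (hsys.ms.measurable.iterate (j + 1)))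
  obtain ⟨hpos, -, -⟩ := h2 X (pastI S P) μ p P hμ hm hP
  obtain ⟨F, hF⟩ : ∃ F : ℕ → X → ENNReal, F = fun N x => ENNReal.ofReal (cyl μ T P N x) *
      ∏ i ∈ Finset.range N, (ENNReal.ofReal (cp (pastI S P) μ P (P (T^[i] x)) (T^[i] x)))⁻¹ := ⟨_, rfl⟩
  have hFm : ∀ N, Measurable (F N) := by
    intro N
    rw [hF]
    refine Measurable.mul (BCT_cyl μ T P N hsys.mp.measurable hP).ennreal_ofReal ?_
    refine Finset.measurable_prod _ fun i _ => ?_
    exact ((BCT_cpm (pastI S P) μ P hm hP).comp (hsys.mp.measurable.iterate i)).ennreal_ofReal.inv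
  have hF1 : ∀ N, ∫⁻ x, F N x ∂μ ≤ 1 := by
    intro N
    rw [hF]
    exact h1 X μ T S p P N hμ hsys hP
  have hF2 : ∀ n N, ∫⁻ x, F N (S^[n] x) ∂μ ≤ 1 := by
    intro n N
    rw [(hsys.ms.iterate n).lintegral_comp (hFm N)]
    exact hF1 N
  -- Markov
  have hbad : ∀ n : ℕ, μ {x | ENNReal.ofReal (Real.exp (ε * ((2 * n + 1 : ℕ) : ℝ))) ≤ F (2 * n + 1) (S^[n] x)} ≤
      ENNReal.ofReal (Real.exp (-(ε * ((2 * n + 1 : ℕ) : ℝ)))) := by
    intro n
    have g1 := mul_meas_ge_le_lintegral (μ := μ) ((hFm (2 * n + 1)).comp (hsys.ms.measurable.iterate n))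
      (ENNReal.ofReal (Real.exp (ε * ((2 * n + 1 : ℕ) : ℝ))))
    have g2 := le_trans g1 (hF2 n (2 * n + 1))
    rw [Real.exp_neg, ENNReal.ofReal_inv_of_pos (Real.exp_pos _)]
    rw [ENNReal.le_inv_iff_mul_le, mul_comm]
    exact g2
  have hsum : ∑' n : ℕ, μ {x | ENNReal.ofReal (Real.exp (ε * ((2 * n + 1 : ℕ) : ℝ))) ≤ F (2 * n + 1) (S^[n] x)} ≠ ⊤ := by
    refine ne_top_of_le_ne_top ?_ (ENNReal.tsum_le_tsum hbad)
    exact (BCT_sum ε hε).tsum_ofReal_ne_top
  have hBC := measure_setOf_frequently_eq_zero hsum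
  have hBC' : ∀ᵐ x ∂μ, ∀ᶠ n : ℕ in atTop,
      F (2 * n + 1) (S^[n] x) < ENNReal.ofReal (Real.exp (ε * ((2 * n + 1 : ℕ) : ℝ))) := by
    rw [ae_iff]
    refine measure_mono_null ?_ hBC
    intro x hx
    simp only [Set.mem_ofPred_eq] at hx ⊢
    rw [Filter.not_eventually] at hx
    refine hx.mono fun n hn => ?_
    exact not_lt.mp hn
  have hgood : ∀ᵐ x ∂μ, ∀ n i : ℕ, 0 < cp (pastI S P) μ P (P (T^[i] (S^[n] x))) (T^[i] (S^[n] x)) ∧
      cp (pastI S P) μ P (P (T^[i] (S^[n] x))) (T^[i] (S^[n] x)) ≤ 1 := by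
    rw [ae_all_iff]
    intro n
    rw [ae_all_iff]
    intro i
    exact ((hsys.mp.iterate i).comp (hsys.ms.iterate n)).quasiMeasurePreserving.ae hpos
  filter_upwards [hBC', hgood] with x hx hg
  refine hx.mono fun n hn => ?_
  rw [hF] at hn
  exact BCT_pt (fun i => cp (pastI S P) μ P (P (T^[i] (S^[n] x))) (T^[i] (S^[n] x)))
    (fun i => gI L (pastI S P) μ P (T^[i] (S^[n] x))) (2 * n + 1) (cyl μ T P (2 * n + 1) (S^[n] x))
    (ε * ((2 * n + 1 : ℕ) : ℝ)) L (fun i => hg n i) (fun i => rfl) hn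

end Pool.Agent.LL
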