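import Pool.Agent.helper62.LL.SpecG

set_option autoImplicit false

open scoped MatrixGroups ContDiff Topology UpperHalfPlane
open UpperHalfPlane MeasureTheory Filter Set

namespace Pool.Agent.LL

theorem CVD_net (R ε : ℝ) (hε : 0 < ε) : ∃ U : Finset SL(2, ℝ), (∀ u ∈ U, ∀ i j, |u.1 i j| ≤ R) ∧
    ∀ h : SL(2, ℝ), (∀ i j, |h.1 i j| ≤ R) → ∃ u ∈ U, ∀ i j, |h.1 i j - u.1 i j| ≤ ε := by
  classical
  obtain ⟨φ, hφ⟩ : ∃ φ : SL(2, ℝ) → (Fin 2 → Fin 2 → ℤ), φ = fun h i j => ⌊h.1 i j / ε⌋ := ⟨_, rfl⟩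
  obtain ⟨K, hK⟩ : ∃ K : Set SL(2, ℝ), K = {h | ∀ i j, |h.1 i j| ≤ R} := ⟨_, rfl⟩
  have hmem : ∀ h : SL(2, ℝ), h ∈ K ↔ ∀ i j, |h.1 i j| ≤ R := by
    intro h
    rw [hK]
    exact Iff.rfl
  have hS : (φ '' K).Finite := by
    have h1 : {g : Fin 2 → ℤ | ∀ j, g j ∈ Icc ⌊-R / ε⌋ ⌊R / ε⌋}.Finite :=
      Set.Finite.pi' fun _ => Set.finite_Icc _ _
    have h2 : {f : Fin 2 → Fin 2 → ℤ | ∀ i, f i ∈ {g : Fin 2 → ℤ | ∀ j, g j ∈ Icc ⌊-R / ε⌋ ⌊R / ε⌋}}.Finite :=
      Set.Finite.pi' fun _ => h1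
    refine h2.subset ?_
    rintro y ⟨h, hh, rfl⟩
    intro i j
    rw [hφ]
    have h3 := abs_le.mp ((hmem h).mp hh i j)
    constructor
    · exact Int.floor_le_floor (div_le_div_of_nonneg_right h3.1 hε.le)
    · exact Int.floor_le_floor (div_le_div_of_nonneg_right h3.2 hε.le)
  refine ⟨hS.toFinset.image (Function.invFunOn φ K), ?_, ?_⟩
  · intro u hu
    rw [Finset.mem_image] at hu
    obtain ⟨y, hy, rfl⟩ := hu
    rw [Set.Finite.mem_toFinset] at hy
    obtain ⟨h, hh, hhy⟩ := hy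
    have h1 : Function.invFunOn φ K y ∈ K := Function.invFunOn_mem ⟨h, hh, hhy⟩
    exact (hmem _).mp h1
  · intro h hh
    have hhK : h ∈ K := (hmem h).mpr hh
    refine ⟨Function.invFunOn φ K (φ h), ?_, ?_⟩
    · rw [Finset.mem_image]
      exact ⟨φ h, hS.mem_toFinset.mpr ⟨h, hhK, rfl⟩, rfl⟩
    · intro i j
      have h1 : φ (Function.invFunOn φ K (φ h)) = φ h := Function.invFunOn_eq ⟨h, hhK, rfl⟩
      obtain ⟨u, hu⟩ : ∃ u, u = Function.invFunOn φ K (φ h) := ⟨_, rfl⟩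
      rw [← hu] at h1 ⊢
      rw [hφ] at h1
      have h2 : ⌊u.1 i j / ε⌋ = ⌊h.1 i j / ε⌋ := congrFun (congrFun h1 i) j
      have h3 := Int.abs_sub_lt_one_of_floor_eq_floor h2.symm
      rw [← sub_div, abs_div, abs_of_pos hε, div_lt_one hε] at h3
      exact h3.le

theorem CVD_two (x y z w M e : ℝ) (hx : |x| ≤ M) (hz : |z| ≤ M) (hy : |y| ≤ e) (hw : |w| ≤ e) : |x * y - z * w| ≤ 2 * M * e := by
  have hM : 0 ≤ M := le_trans (abs_nonneg _) hx
  have h1 : |x * y| ≤ M * e := by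
    rw [abs_mul]
    exact mul_le_mul hx hy (abs_nonneg _) hM
  have h2 : |z * w| ≤ M * e := by
    rw [abs_mul]
    exact mul_le_mul hz hw (abs_nonneg _) hM
  calc |x * y - z * w| ≤ |x * y| + |z * w| := abs_sub _ _
    _ ≤ _ := by linarith

/-- the computation for small `τ` -/
theorem CVD_small (R r τ a b c d : ℝ) (hR : 1 ≤ R) (hr : 0 < r) (hr1 : r ≤ 1) (hτ0 : 0 < τ) (hτ : τ ≤ r / (8 * R ^ 2))
    (ha : |a| ≤ R) (hb : |b| ≤ R) (hc : |c| ≤ R) (hd : |d| ≤ R) (hdet : a * d - b * c = 1) (h1 : |a * c| ≤ τ) (h2 : |b * d| ≤ τ)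
    (h3 : 1 / 2 ≤ |a * d|) (x : ℝ) (hx : |a - x| ≤ r / (16 * R)) :
    x ≠ 0 ∧ |a / x - 1| ≤ r ∧ |x * d - 1| ≤ r ∧ |b / x| ≤ 8 * R ^ 2 * τ ∧ |x * c| ≤ 8 * R ^ 2 * τ := by
  have hR0 : 0 < R := by linarith
  have ha1 : 1 / (2 * R) ≤ |a| := by
    rw [abs_mul] at h3
    rw [div_le_iff₀ (by positivity)]
    nlinarith [mul_le_mul_of_nonneg_left hd (abs_nonneg a)]
  have hd1 : 1 / (2 * R) ≤ |d| := by
    rw [abs_mul] at h3
    rw [div_le_iff₀ (by positivity)]
    nlinarith [mul_le_mul_of_nonneg_right ha (abs_nonneg d)]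
  have hc1 : |c| ≤ 2 * R * τ := by
    rw [abs_mul] at h1
    have h4 : 1 / (2 * R) * |c| ≤ τ := le_trans (mul_le_mul_of_nonneg_right ha1 (abs_nonneg _)) h1
    rw [div_mul_eq_mul_div, one_mul, div_le_iff₀ (by positivity)] at h4
    linarith
  have hb1 : |b| ≤ 2 * R * τ := by
    rw [abs_mul] at h2
    have h4 : |b| * (1 / (2 * R)) ≤ τ := le_trans (mul_le_mul_of_nonneg_left hd1 (abs_nonneg _)) h2
    rw [mul_one_div, div_le_iff₀ (by positivity)] at h4
    linarith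
  have he : r / (16 * R) ≤ 1 / (4 * R) := by
    rw [div_le_div_iff₀ (by positivity) (by positivity)]
    nlinarith
  have hx1 : 1 / (4 * R) ≤ |x| := by
    have h4 : |a| ≤ |a - x| + |x| := by
      calc |a| = |(a - x) + x| := by rw [sub_add_cancel]
        _ ≤ _ := abs_add_le _ _
    have h5 : 1 / (2 * R) = 1 / (4 * R) + 1 / (4 * R) := by
      field_simp
      norm_num
    linarith
  have hx0 : 0 < |x| := lt_of_lt_of_le (by positivity) hx1
  have hxne : x ≠ 0 := abs_pos.mp hx0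
  have hx2 : |x| ≤ 2 * R := by
    have h4 : |x| ≤ |x - a| + |a| := by
      calc |x| = |(x - a) + a| := by rw [sub_add_cancel]
        _ ≤ _ := abs_add_le _ _
    rw [abs_sub_comm] at h4
    have h5 : 1 / (4 * R) ≤ R := by
      rw [div_le_iff₀ (by positivity)]
      nlinarith
    linarith
  have hxi : |x|⁻¹ ≤ 4 * R := by
    rw [inv_le_comm₀ hx0 (by positivity), ← one_div]
    exact hx1
  refine ⟨hxne, ?_, ?_, ?_, ?_⟩
  · have h4 : a / x - 1 = (a - x) / x := by field_simp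
    rw [h4, abs_div, div_eq_mul_inv]
    calc |a - x| * |x|⁻¹ ≤ r / (16 * R) * (4 * R) := mul_le_mul hx hxi (by positivity) (by positivity)
      _ = r / 4 := by field_simp; norm_num
      _ ≤ r := by linarith
  · have h4 : x * d - 1 = b * c - (a - x) * d := by linear_combination hdet
    have h5 : |b * c| ≤ r / 2 := by
      rw [abs_mul]
      calc |b| * |c| ≤ (2 * R * τ) * (2 * R * τ) := mul_le_mul hb1 hc1 (abs_nonneg _) (by positivity)
        _ = 4 * R ^ 2 * (τ * τ) := by ring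
        _ ≤ 4 * R ^ 2 * (r / (8 * R ^ 2) * (r / (8 * R ^ 2))) := by
            refine mul_le_mul_of_nonneg_left (mul_le_mul hτ hτ hτ0.le (by positivity)) (by positivity)
        _ = r / 2 * (r / (8 * R ^ 2)) := by field_simp; norm_num
        _ ≤ r / 2 * 1 := by
            refine mul_le_mul_of_nonneg_left ?_ (by positivity)
            rw [div_le_one (by positivity)]
            nlinarith
        _ = r / 2 := mul_one _
    have h6 : |(a - x) * d| ≤ r / 2 := by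
      rw [abs_mul]
      calc |a - x| * |d| ≤ r / (16 * R) * R := mul_le_mul hx hd (abs_nonneg _) (by positivity)
        _ = r / 16 := by field_simp
        _ ≤ r / 2 := by linarith
    rw [h4]
    calc |b * c - (a - x) * d| ≤ |b * c| + |(a - x) * d| := abs_sub _ _
      _ ≤ r := by linarith
  · rw [abs_div, div_eq_mul_inv]
    calc |b| * |x|⁻¹ ≤ (2 * R * τ) * (4 * R) := mul_le_mul hb1 hxi (by positivity) (by positivity)
      _ = _ := by ring
  · rw [abs_mul]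
    calc |x| * |c| ≤ (2 * R) * (2 * R * τ) := mul_le_mul hx2 hc1 (abs_nonneg _) (by positivity)
      _ = 4 * (R ^ 2 * τ) := by ring
      _ ≤ 8 * (R ^ 2 * τ) := mul_le_mul_of_nonneg_right (by norm_num) (by positivity)
      _ = _ := by ring

/-- diagonal matrices -/
noncomputable def CVD_D (x : ℝ) : SL(2, ℝ) := if hx : x = 0 then 1 else
  ⟨!![x, 0; 0, x⁻¹], by rw [Matrix.det_fin_two_of]; field_simp; ring⟩

/-- antidiagonal matrices -/
noncomputable def CVD_A (x : ℝ) : SL(2, ℝ) := if hx : x = 0 then 1 else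
  ⟨!![0, -x⁻¹; x, 0], by rw [Matrix.det_fin_two_of]; field_simp; ring⟩

theorem CVD_proof : CVD_stmt := by
  classical
  intro R₀ r hR₀ hr hr1
  obtain ⟨R, hRR, hR⟩ : ∃ R : ℝ, R₀ ≤ R ∧ 1 ≤ R := ⟨max R₀ 1, le_max_left _ _, le_max_right _ _⟩
  have hR0 : 0 < R := by linarith
  obtain ⟨U₂, hU2, hU2'⟩ := CVD_net R (r / (2 * R)) (by positivity)
  obtain ⟨ε, hε⟩ : ∃ ε : ℝ, ε = r / (16 * R) := ⟨_, rfl⟩
  have hε0 : 0 < ε := by rw [hε]; positivity
  obtain ⟨X, hX⟩ : ∃ X : Finset ℝ, X = (Finset.Icc ⌊-R / ε⌋ ⌊R / ε⌋).image (fun k : ℤ => ε * (k : ℝ)) := ⟨_, rfl⟩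
  have hXa : ∀ a : ℝ, |a| ≤ R → ∃ x ∈ X, |a - x| ≤ r / (16 * R) := by
    intro a ha
    refine ⟨ε * (⌊a / ε⌋ : ℤ), ?_, ?_⟩
    · rw [hX, Finset.mem_image]
      refine ⟨⌊a / ε⌋, ?_, rfl⟩
      rw [Finset.mem_Icc]
      have h3 := abs_le.mp ha
      exact ⟨Int.floor_le_floor (div_le_div_of_nonneg_right h3.1 hε0.le),
        Int.floor_le_floor (div_le_div_of_nonneg_right h3.2 hε0.le)⟩
    · rw [← hε]
      have h4 := Int.floor_le (a / ε)
      have h5 := Int.lt_floor_add_one (a / ε)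
      rw [le_div_iff₀ hε0] at h4
      rw [div_lt_iff₀ hε0] at h5
      rw [abs_le]
      constructor <;> linarith
  refine ⟨8 * R ^ 2, U₂ ∪ (X.image CVD_D ∪ X.image CVD_A), by positivity, ?_⟩
  intro h τ hτ0 hh hth
  have hh' : ∀ i j, |h.1 i j| ≤ R := fun i j => le_trans (hh i j) hRR
  obtain ⟨a, ha⟩ : ∃ a, a = h.1 0 0 := ⟨_, rfl⟩
  obtain ⟨b, hb⟩ : ∃ b, b = h.1 0 1 := ⟨_, rfl⟩
  obtain ⟨c, hc⟩ : ∃ c, c = h.1 1 0 := ⟨_, rfl⟩
  obtain ⟨d, hd⟩ : ∃ d, d = h.1 1 1 := ⟨_, rfl⟩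
  have hdet : a * d - b * c = 1 := by
    have h1 := h.2
    rw [Matrix.det_fin_two] at h1
    rw [ha, hb, hc, hd]
    exact h1
  have ha' : |a| ≤ R := by rw [ha]; exact hh' 0 0
  have hb' : |b| ≤ R := by rw [hb]; exact hh' 0 1
  have hc' : |c| ≤ R := by rw [hc]; exact hh' 1 0
  have hd' : |d| ≤ R := by rw [hd]; exact hh' 1 1
  have hac : |a * c| ≤ τ := by
    rw [ha, hc]
    exact le_trans (le_max_left _ _) hth
  have hbd : |b * d| ≤ τ := by
    rw [hb, hd]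
    exact le_trans (le_max_right _ _) hth
  rcases le_or_gt τ (r / (8 * R ^ 2)) with hτ | hτ
  · rcases le_or_gt (1 / 2) |a * d| with h3 | h3
    · obtain ⟨x, hxX, hx⟩ := hXa a ha'
      obtain ⟨hx0, g1, g2, g3, g4⟩ := CVD_small R r τ a b c d hR hr hr1 hτ0 hτ ha' hb' hc' hd' hdet hac hbd h3 x hx
      refine ⟨CVD_D x, ?_, ⟨!![a / x, b / x; x * c, x * d], ?_⟩, ?_, ?_⟩
      · exact Finset.mem_union_right _ (Finset.mem_union_left _ (Finset.mem_image_of_mem _ hxX))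
      · rw [Matrix.det_fin_two_of]
        have h5 : a / x * (x * d) - b / x * (x * c) = a * d - b * c := by field_simp
        rw [h5, hdet]
      · apply Subtype.ext
        rw [CVD_D, dif_neg hx0, Matrix.SpecialLinearGroup.coe_mul]
        ext i j
        fin_cases i <;> fin_cases j
        · simp [Matrix.mul_apply, Fin.sum_univ_two, ← ha]
          field_simp
        · simp [Matrix.mul_apply, Fin.sum_univ_two, ← hb]
          field_simp
        · simp [Matrix.mul_apply, Fin.sum_univ_two, ← hc]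
          field_simp
        · simp [Matrix.mul_apply, Fin.sum_univ_two, ← hd]
          field_simp
      · exact ⟨g1, g2, g3, g4⟩
    · have h3' : 1 / 2 ≤ |c * b| := by
        have h4 : |a * d - b * c| = 1 := by rw [hdet, abs_one]
        have h5 := abs_sub (a * d) (b * c)
        rw [mul_comm c b]
        linarith
      obtain ⟨x, hxX, hx⟩ := hXa c hc'
      have hca : |c * -a| ≤ τ := by
        rw [mul_neg, abs_neg, mul_comm]
        exact hac
      have hdb : |d * -b| ≤ τ := by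
        rw [mul_neg, abs_neg, mul_comm]
        exact hbd
      obtain ⟨hx0, g1, g2, g3, g4⟩ := CVD_small R r τ c d (-a) (-b) hR hr hr1 hτ0 hτ hc' hd' (by rw [abs_neg]; exact ha')
        (by rw [abs_neg]; exact hb') (by linear_combination hdet) hca hdb (by rw [mul_neg, abs_neg]; exact h3') x hx
      refine ⟨CVD_A x, ?_, ⟨!![c / x, d / x; x * -a, x * -b], ?_⟩, ?_, ?_⟩
      · exact Finset.mem_union_right _ (Finset.mem_union_right _ (Finset.mem_image_of_mem _ hxX))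
      · rw [Matrix.det_fin_two_of]
        have h5 : c / x * (x * -b) - d / x * (x * -a) = a * d - b * c := by field_simp; ring
        rw [h5, hdet]
      · apply Subtype.ext
        rw [CVD_A, dif_neg hx0, Matrix.SpecialLinearGroup.coe_mul]
        ext i j
        fin_cases i <;> fin_cases j
        · simp [Matrix.mul_apply, Fin.sum_univ_two, ← ha]
          field_simp
        · simp [Matrix.mul_apply, Fin.sum_univ_two, ← hb]
          field_simp
        · simp [Matrix.mul_apply, Fin.sum_univ_two, ← hc]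
          field_simp
        · simp [Matrix.mul_apply, Fin.sum_univ_two, ← hd]
          field_simp
      · exact ⟨g1, g2, g3, g4⟩
  · obtain ⟨u, hu, hhu⟩ := hU2' h hh'
    have hub := hU2 u hu
    have hudet : u.1 0 0 * u.1 1 1 - u.1 0 1 * u.1 1 0 = 1 := by
      have h1 := u.2
      rw [Matrix.det_fin_two] at h1
      exact h1
    have hrr : 2 * R * (r / (2 * R)) = r := by field_simp
    have hoff : r ≤ 8 * R ^ 2 * τ := by
      rw [div_lt_iff₀ (by positivity)] at hτ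
      linarith
    have e00 : (u⁻¹ * h).1 0 0 = u.1 1 1 * h.1 0 0 - u.1 0 1 * h.1 1 0 := by
      rw [Matrix.SpecialLinearGroup.coe_mul, Matrix.SpecialLinearGroup.SL2_inv_expl]
      simp [Matrix.mul_apply, Fin.sum_univ_two]
      ring
    have e01 : (u⁻¹ * h).1 0 1 = u.1 1 1 * h.1 0 1 - u.1 0 1 * h.1 1 1 := by
      rw [Matrix.SpecialLinearGroup.coe_mul, Matrix.SpecialLinearGroup.SL2_inv_expl]
      simp [Matrix.mul_apply, Fin.sum_univ_two]
      ring
    have e10 : (u⁻¹ * h).1 1 0 = u.1 0 0 * h.1 1 0 - u.1 1 0 * h.1 0 0 := by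
      rw [Matrix.SpecialLinearGroup.coe_mul, Matrix.SpecialLinearGroup.SL2_inv_expl]
      simp [Matrix.mul_apply, Fin.sum_univ_two]
      ring
    have e11 : (u⁻¹ * h).1 1 1 = u.1 0 0 * h.1 1 1 - u.1 1 0 * h.1 0 1 := by
      rw [Matrix.SpecialLinearGroup.coe_mul, Matrix.SpecialLinearGroup.SL2_inv_expl]
      simp [Matrix.mul_apply, Fin.sum_univ_two]
      ring
    refine ⟨u, Finset.mem_union_left _ hu, u⁻¹ * h, (mul_inv_cancel_left u h).symm, ?_, ?_, ?_, ?_⟩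
    · rw [e00]
      have h5 : u.1 1 1 * h.1 0 0 - u.1 0 1 * h.1 1 0 - 1 =
          u.1 1 1 * (h.1 0 0 - u.1 0 0) - u.1 0 1 * (h.1 1 0 - u.1 1 0) := by linear_combination hudet
      rw [h5]
      exact le_trans (CVD_two _ _ _ _ R (r / (2 * R)) (hub 1 1) (hub 0 1) (hhu 0 0) (hhu 1 0)) hrr.le
    · rw [e11]
      have h5 : u.1 0 0 * h.1 1 1 - u.1 1 0 * h.1 0 1 - 1 =
          u.1 0 0 * (h.1 1 1 - u.1 1 1) - u.1 1 0 * (h.1 0 1 - u.1 0 1) := by linear_combination hudet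
      rw [h5]
      exact le_trans (CVD_two _ _ _ _ R (r / (2 * R)) (hub 0 0) (hub 1 0) (hhu 1 1) (hhu 0 1)) hrr.le
    · rw [e01]
      have h5 : u.1 1 1 * h.1 0 1 - u.1 0 1 * h.1 1 1 =
          u.1 1 1 * (h.1 0 1 - u.1 0 1) - u.1 0 1 * (h.1 1 1 - u.1 1 1) := by ring
      rw [h5]
      exact le_trans (le_trans (CVD_two _ _ _ _ R (r / (2 * R)) (hub 1 1) (hub 0 1) (hhu 0 1) (hhu 1 1)) hrr.le) hoff
    · rw [e10]
      have h5 : u.1 0 0 * h.1 1 0 - u.1 1 0 * h.1 0 0 =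
          u.1 0 0 * (h.1 1 0 - u.1 1 0) - u.1 1 0 * (h.1 0 0 - u.1 0 0) := by ring
      rw [h5]
      exact le_trans (le_trans (CVD_two _ _ _ _ R (r / (2 * R)) (hub 0 0) (hub 1 0) (hhu 1 0) (hhu 0 0)) hrr.le) hoff

end Pool.Agent.LL
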